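import Pool.Agent.W339.ZC.Fam
import Pool.Agent.H337R2.Un3
import Pool.Agent.H337R2.Un5
import Pool.Agent.H337R2.Un7
import Pool.Agent.H337R2.Un9

/-!
# Rational differential operators applied to the Hurwitz zeta functions
-/

open Pool.Agent.H337R2

namespace Pool.Agent.W339.ZC

noncomputable section

/-- the windows, in terms of the order `b - 1` of the highest derivative -/
theorem window (b : ℕ) (hb : Odd b) (hb3 : 3 ≤ b) (β : ℕ) (hβ : β + 1 ≤ b) (w : ℕ → ℚ) (hwβ : w β ≠ 0)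
    (hwz : ∀ δ, β < δ → w δ = 0) :
    ∃ i, Odd i ∧ 3 ≤ i ∧ 4 * (i + b) ≤ 21 * b + 4 ∧ Irrational (Zc β w i) := by
  have hB : (expd ubdm).length = 34 := by decide +kernel
  have h3 : (expd u3dm).length = 14 := by decide +kernel
  have h5 : (expd u5dm).length = 22 := by decide +kernel
  have h7 : (expd u7dm).length = 30 := by decide +kernel
  have h9 : (expd u9dm).length = 40 := by decide +kernel
  obtain ⟨k, hk⟩ := hb
  have hcase : ∃ m : ℕ, b = 3 + 8 * m ∨ b = 5 + 8 * m ∨ b = 7 + 8 * m ∨ b = 9 + 8 * m := by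
    refine ⟨(b - 3) / 8, ?_⟩
    omega
  obtain ⟨m, h | h | h | h⟩ := hcase
  · obtain ⟨i, hio, hi3, hi, hirr⟩ := certU_irrational u3cert m β (by omega) w hwβ hwz
    rw [h3, hB] at hi
    obtain ⟨j, hj⟩ := hio
    exact ⟨i, ⟨j, hj⟩, hi3, by omega, hirr⟩
  · obtain ⟨i, hio, hi3, hi, hirr⟩ := certU_irrational u5cert m β (by omega) w hwβ hwz
    rw [h5, hB] at hi
    obtain ⟨j, hj⟩ := hio
    exact ⟨i, ⟨j, hj⟩, hi3, by omega, hirr⟩
  · obtain ⟨i, hio, hi3, hi, hirr⟩ := certU_irrational u7cert m β (by omega) w hwβ hwz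
    rw [h7, hB] at hi
    obtain ⟨j, hj⟩ := hio
    exact ⟨i, ⟨j, hj⟩, hi3, by omega, hirr⟩
  · obtain ⟨i, hio, hi3, hi, hirr⟩ := certU_irrational u9cert m β (by omega) w hwβ hwz
    rw [h9, hB] at hi
    obtain ⟨j, hj⟩ := hio
    exact ⟨i, ⟨j, hj⟩, hi3, by omega, hirr⟩

/-- the weights -/
def wt (k l1 : ℕ) (a : ℕ → ℚ) (δ : ℕ) : ℚ :=
  if k ≤ δ ∧ δ ≤ k + l1 then (-1) ^ δ * (a (δ - k) * ((δ.factorial : ℚ) / ((δ - k).factorial : ℚ))) else 0

lemma wt_val (k l1 : ℕ) (a : ℕ → ℚ) (l : ℕ) (hl : l ≤ l1) :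
    wt k l1 a (k + l) = (-1) ^ (k + l) * (a l * (((k + l).factorial : ℚ) / (l.factorial : ℚ))) := by
  unfold wt
  rw [if_pos ⟨by omega, by omega⟩, Nat.add_sub_cancel_left]

lemma wt_Cf (k l1 : ℕ) (a : ℕ → ℚ) (l i : ℕ) (hl : l ≤ l1) (hi : 1 ≤ i) :
    wt k l1 a (k + l) * Cf (k + l) i =
      (((i + k - 1).factorial : ℚ) / ((i - 1).factorial : ℚ)) * (a l * (Nat.choose (i + k + l - 1) l : ℚ)) := by
  rw [wt_val k l1 a l hl]
  unfold Cf
  obtain ⟨i', rfl⟩ : ∃ i', i = i' + 1 := ⟨i - 1, by omega⟩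
  rw [show i' + 1 - 1 = i' by omega, show i' + 1 + k - 1 = i' + k by omega,
    show i' + 1 + k + l - 1 = l + (i' + k) by omega, Nat.cast_add_choose, Nat.cast_add_choose]
  have h1 : ((-1 : ℚ)) ^ (k + l) * (-1) ^ (k + l) = 1 := by
    rw [← mul_pow]; norm_num
  have f1 : ((i'.factorial : ℕ) : ℚ) ≠ 0 := by exact_mod_cast Nat.factorial_ne_zero _
  have f2 : ((l.factorial : ℕ) : ℚ) ≠ 0 := by exact_mod_cast Nat.factorial_ne_zero _
  have f3 : (((k + l).factorial : ℕ) : ℚ) ≠ 0 := by exact_mod_cast Nat.factorial_ne_zero _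
  have f4 : (((i' + k).factorial : ℕ) : ℚ) ≠ 0 := by exact_mod_cast Nat.factorial_ne_zero _
  have e : i' + (k + l) = l + (i' + k) := by omega
  rw [e]
  calc (-1 : ℚ) ^ (k + l) * (a l * (((k + l).factorial : ℚ) / (l.factorial : ℚ))) *
        ((-1) ^ (k + l) * (((l + (i' + k)).factorial : ℚ) / ((i'.factorial : ℚ) * ((k + l).factorial : ℚ))))
      = ((-1 : ℚ) ^ (k + l) * (-1) ^ (k + l)) * ((a l * (((k + l).factorial : ℚ) / (l.factorial : ℚ))) *
        (((l + (i' + k)).factorial : ℚ) / ((i'.factorial : ℚ) * ((k + l).factorial : ℚ)))) := by ring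
    _ = _ := by
      rw [h1, one_mul]
      field_simp

/-- Let `a_0, …, a_s` be rational numbers, not all zero. In every window `[j0, (21 j0 + 17 s - 42)/4]` with
`j0 ≥ 3`, `j0 + s` odd there is a `j`, of the parity of `j0`, such that `∑_l a_l C(j+l-1, l) ζ(j+l)` is irrational. -/
theorem main (s j0 : ℕ) (h3 : 3 ≤ j0) (hpar : Odd (j0 + s)) (h5 : 5 ≤ j0 + s) (a : ℕ → ℚ)
    (ha : ∃ l, l ≤ s ∧ a l ≠ 0) :
    ∃ j : ℕ, j % 2 = j0 % 2 ∧ j0 ≤ j ∧ 4 * j + 42 ≤ 21 * j0 + 17 * s ∧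
      Irrational (∑ l ∈ Finset.range (s + 1),
        (a l : ℝ) * (Nat.choose (j + l - 1) l : ℝ) * ∑' n : ℕ, 1 / ((n : ℝ) + 1) ^ (j + l)) := by
  obtain ⟨k, hk⟩ : ∃ k, j0 = k + 3 := ⟨j0 - 3, by omega⟩
  obtain ⟨l1, hl1, hal1, hmax⟩ : ∃ l1, l1 ≤ s ∧ a l1 ≠ 0 ∧ ∀ l, l ≤ s → l1 < l → a l = 0 := by
    classical
    obtain ⟨l0, hl0, ha0⟩ := ha
    refine ⟨Nat.findGreatest (fun l => a l ≠ 0) s, Nat.findGreatest_le _,
      Nat.findGreatest_spec (P := fun l => a l ≠ 0) hl0 ha0, fun l hl hlt => ?_⟩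
    by_contra hne
    exact Nat.findGreatest_is_greatest hlt hl hne
  have hb : Odd (k + s + 1) := by
    obtain ⟨y, hy⟩ := hpar
    refine ⟨y - 1, ?_⟩
    omega
  have hfac : ∀ x : ℕ, ((x.factorial : ℕ) : ℚ) ≠ 0 := fun x => by exact_mod_cast Nat.factorial_ne_zero x
  have hwβ : wt k l1 a (k + l1) ≠ 0 := by
    rw [wt_val k l1 a l1 le_rfl]
    exact mul_ne_zero (pow_ne_zero _ (by norm_num)) (mul_ne_zero hal1 (div_ne_zero (hfac _) (hfac _)))
  have hwz : ∀ δ, k + l1 < δ → wt k l1 a δ = 0 := by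
    intro δ hδ
    unfold wt
    rw [if_neg (by omega)]
  obtain ⟨i, hio, hi3, hi, hirr⟩ := window (k + s + 1) hb (by omega) (k + l1) (by omega) (wt k l1 a) hwβ hwz
  refine ⟨i + k, ?_, by omega, by omega, ?_⟩
  · obtain ⟨y, hy⟩ := hio
    omega
  · set c0 : ℚ := ((i + k - 1).factorial : ℚ) / ((i - 1).factorial : ℚ) with hc0
    have key : Zc (k + l1) (wt k l1 a) i = (c0 : ℝ) * ∑ l ∈ Finset.range (s + 1),
        (a l : ℝ) * (Nat.choose (i + k + l - 1) l : ℝ) * ∑' n : ℕ, 1 / ((n : ℝ) + 1) ^ (i + k + l) := by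
      unfold Zc
      rw [add_assoc k l1 1, Finset.sum_range_add, Finset.sum_eq_zero (s := Finset.range k), zero_add, Finset.mul_sum]
      · have hsub : Finset.range (l1 + 1) ⊆ Finset.range (s + 1) := by
          intro x hx
          rw [Finset.mem_range] at *
          omega
        rw [← Finset.sum_subset hsub]
        · apply Finset.sum_congr rfl
          intro l hl
          rw [Finset.mem_range] at hl
          rw [wt_Cf k l1 a l i (by omega) (by omega), ← add_assoc i k l]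
          push_cast
          unfold zr
          rw [hc0]
          push_cast
          ring
        · intro l hl hl2
          rw [Finset.mem_range] at hl hl2
          rw [hmax l (by omega) (by omega)]
          simp
      · intro δ hδ
        rw [Finset.mem_range] at hδ
        have : wt k l1 a δ = 0 := by
          unfold wt
          rw [if_neg (by omega)]
        rw [this]
        simp
    rw [key] at hirr
    intro hrat
    apply hirr
    obtain ⟨v, hv⟩ := hrat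
    exact ⟨c0 * v, by rw [← hv]; push_cast; ring⟩

end

end Pool.Agent.W339.ZC
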