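import Pool.Agent.H337R2.Sym

/-!
# The linear form without derivative
-/

open Polynomial Filter Topology Pool.Agent.H337R2

namespace Pool.Agent.W339.ZC

noncomputable section

lemma sum_shift (f : ℕ → ℝ) (m T : ℕ) :
    ∑ t ∈ Finset.range T, (f t - f (t + m)) = ∑ l ∈ Finset.range m, f l - ∑ l ∈ Finset.range m, f (T + l) := by
  have h1 : ∑ t ∈ Finset.range T, f t + ∑ l ∈ Finset.range m, f (T + l) = ∑ t ∈ Finset.range (T + m), f t :=
    (Finset.sum_range_add f T m).symm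
  have h2 : ∑ t ∈ Finset.range m, f t + ∑ l ∈ Finset.range T, f (m + l) = ∑ t ∈ Finset.range (m + T), f t :=
    (Finset.sum_range_add f m T).symm
  have h3 : ∑ l ∈ Finset.range T, f (m + l) = ∑ l ∈ Finset.range T, f (l + m) :=
    Finset.sum_congr rfl fun l _ => by rw [add_comm]
  rw [Finset.sum_sub_distrib]
  rw [add_comm m T] at h2
  rw [h3] at h2
  linarith

lemma hasSum_harm (m : ℕ) :
    HasSum (fun t : ℕ => 1 / ((t : ℝ) + 1) - 1 / ((t : ℝ) + (m : ℝ) + 1)) ((hs 1 m : ℚ) : ℝ) := by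
  have hnn : ∀ t : ℕ, 0 ≤ 1 / ((t : ℝ) + 1) - 1 / ((t : ℝ) + (m : ℝ) + 1) := by
    intro t
    rw [sub_nonneg]
    apply one_div_le_one_div_of_le (by positivity)
    have : (0 : ℝ) ≤ m := by positivity
    linarith
  rw [hasSum_iff_tendsto_nat_of_nonneg hnn]
  have h1 : ∀ T : ℕ, ∑ t ∈ Finset.range T, (1 / ((t : ℝ) + 1) - 1 / ((t : ℝ) + (m : ℝ) + 1)) =
      ((hs 1 m : ℚ) : ℝ) - ∑ l ∈ Finset.range m, 1 / (((T + l : ℕ) : ℝ) + 1) := by
    intro T
    have h2 := sum_shift (fun t : ℕ => 1 / ((t : ℝ) + 1)) m T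
    unfold hs
    push_cast at h2 ⊢
    rw [h2]
    simp only [pow_one]
  have h2 : Tendsto (fun T : ℕ => ((hs 1 m : ℚ) : ℝ) - ∑ l ∈ Finset.range m, 1 / (((T + l : ℕ) : ℝ) + 1)) atTop
      (𝓝 (((hs 1 m : ℚ) : ℝ) - ∑ l ∈ Finset.range m, (0 : ℝ))) := by
    apply Tendsto.sub tendsto_const_nhds
    apply tendsto_finsetSum
    intro l _
    have h3 : Tendsto (fun T : ℕ => ((T + l : ℕ) : ℝ) + 1) atTop atTop := by
      apply tendsto_atTop_add_const_right
      exact tendsto_natCast_atTop_atTop.comp (tendsto_add_atTop_nat l)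
    have h4 := h3.inv_tendsto_atTop
    exact h4.congr fun T => by rw [Pi.inv_apply, one_div]
  rw [Finset.sum_const_zero, sub_zero] at h2
  exact h2.congr fun T => (h1 T).symm

/-- linear form, without derivative -/
theorem linear_form0 (s : Finset ℕ) (μ : ℕ → ℕ) (P : ℚ[X])
    (hdeg : P.natDegree + 2 ≤ (QQ s μ).natDegree) (s0 r : ℕ)
    (hs0 : ∀ k ∈ s, s0 < k) (hr : ∀ k ∈ s, μ k ≤ r)
    (hz : ∀ m ∈ Finset.Icc 1 s0, (X + C (m : ℚ)) ^ 1 ∣ P) :
    HasSum (fun t : ℕ => ((PowerSeries.coeff 0 (RS s μ P (t : ℚ)) : ℚ) : ℝ))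
      (∑ i ∈ Finset.Icc 1 r,
        (((∑ k ∈ s, pa s μ P k i : ℚ) : ℝ) * zr i - ((∑ k ∈ s, pa s μ P k i * hs i (k - s0 - 1) : ℚ) : ℝ))) := by
  have hdeg' : P.degree < (QQ s μ).degree := by
    rw [Polynomial.degree_eq_natDegree (QQ_monic s μ).ne_zero]
    exact lt_of_le_of_lt Polynomial.degree_le_natDegree (by exact_mod_cast (by omega))
  -- the shifted function
  let φ : ℕ → ℝ := fun t => ∑ i ∈ Finset.Icc 1 r, ∑ k ∈ s,
        ((pa s μ P k i : ℚ) : ℝ) * (1 / ((t : ℝ) + (((k - s0 - 1 : ℕ) : ℝ) + 1)) ^ i)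
  have hφ : HasSum φ (∑ i ∈ Finset.Icc 1 r,
        (((∑ k ∈ s, pa s μ P k i : ℚ) : ℝ) * zr i - ((∑ k ∈ s, pa s μ P k i * hs i (k - s0 - 1) : ℚ) : ℝ))) := by
    apply hasSum_sum
    intro i hi
    rw [Finset.mem_Icc] at hi
    by_cases hi2 : 2 ≤ i
    · have h1 : HasSum (fun t : ℕ => ∑ k ∈ s, ((pa s μ P k i : ℚ) : ℝ) * (1 / ((t : ℝ) + (((k - s0 - 1 : ℕ) : ℝ) + 1)) ^ i))
          (∑ k ∈ s, ((pa s μ P k i : ℚ) : ℝ) * (zr i - (hs i (k - s0 - 1) : ℚ))) := by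
        apply hasSum_sum
        intro k _
        exact (hasSum_tail hi2 _).mul_left _
      convert h1 using 1
      push_cast
      rw [Finset.sum_mul, ← Finset.sum_sub_distrib]
      apply Finset.sum_congr rfl
      intro k _
      ring
    · have hi1 : i = 1 := by omega
      subst hi1
      have h0 : (∑ k ∈ s, ((pa s μ P k 1 : ℚ) : ℝ)) = 0 := by
        have h := residue_sum s μ P hdeg
        have : (((∑ k ∈ s, pa s μ P k 1 : ℚ)) : ℝ) = 0 := by rw [h]; simp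
        push_cast at this
        exact this
      have h1 : HasSum (fun t : ℕ => ∑ k ∈ s, (-((pa s μ P k 1 : ℚ) : ℝ)) *
          (1 / ((t : ℝ) + 1) - 1 / ((t : ℝ) + ((k - s0 - 1 : ℕ) : ℝ) + 1)))
          (∑ k ∈ s, (-((pa s μ P k 1 : ℚ) : ℝ)) * ((hs 1 (k - s0 - 1) : ℚ) : ℝ)) := by
        apply hasSum_sum
        intro k _
        exact (hasSum_harm _).mul_left _
      convert h1 using 1
      · funext t
        have h2 : ∑ k ∈ s, (-((pa s μ P k 1 : ℚ) : ℝ)) *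
          (1 / ((t : ℝ) + 1) - 1 / ((t : ℝ) + ((k - s0 - 1 : ℕ) : ℝ) + 1)) =
          ∑ k ∈ s, ((pa s μ P k 1 : ℚ) : ℝ) * (1 / ((t : ℝ) + (((k - s0 - 1 : ℕ) : ℝ) + 1)) ^ 1) -
            (∑ k ∈ s, ((pa s μ P k 1 : ℚ) : ℝ)) * (1 / ((t : ℝ) + 1)) := by
          rw [Finset.sum_mul, ← Finset.sum_sub_distrib]
          apply Finset.sum_congr rfl
          intro k _
          rw [pow_one, ← add_assoc]
          ring
        rw [h2, h0, zero_mul, sub_zero]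
      · push_cast
        rw [h0, zero_mul, zero_sub, ← Finset.sum_neg_distrib]
        apply Finset.sum_congr rfl
        intro k _
        ring
  -- φ t is the value at t - s0
  have hval : ∀ t : ℕ, φ t = ((PowerSeries.coeff 0 (RS s μ P ((t : ℚ) - s0)) : ℚ) : ℝ) := by
    intro t
    have hne : ∀ k ∈ s, ((t : ℚ) - s0) + (k : ℚ) ≠ 0 := by
      intro k hk
      have h1 := hs0 k hk
      have h2 : (s0 : ℚ) < k := by exact_mod_cast h1
      have h3 : (0 : ℚ) ≤ t := by positivity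
      intro h4
      linarith
    rw [coeff_RS s μ P hdeg' _ hne 0]
    have h5 : ∀ k ∈ s, ∑ j ∈ Finset.range (μ k), ((pfc s μ P k j : ℚ) : ℝ) *
        (1 / ((t : ℝ) + (((k - s0 - 1 : ℕ) : ℝ) + 1)) ^ (μ k - j)) =
        ∑ i ∈ Finset.Icc 1 r, ((pa s μ P k i : ℚ) : ℝ) * (1 / ((t : ℝ) + (((k - s0 - 1 : ℕ) : ℝ) + 1)) ^ i) := by
      intro k hk
      exact sum_pfc_eq s μ P r k (hr k hk) (fun a i => ((a : ℚ) : ℝ) *
        (1 / ((t : ℝ) + (((k - s0 - 1 : ℕ) : ℝ) + 1)) ^ i)) (by intro i; simp)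
    have h6 : φ t = ∑ k ∈ s, ∑ j ∈ Finset.range (μ k), ((pfc s μ P k j : ℚ) : ℝ) *
        (1 / ((t : ℝ) + (((k - s0 - 1 : ℕ) : ℝ) + 1)) ^ (μ k - j)) := by
      rw [Finset.sum_congr rfl h5, Finset.sum_comm]
    rw [h6]
    push_cast
    apply Finset.sum_congr rfl
    intro k hk
    apply Finset.sum_congr rfl
    intro j _
    have h1 := hs0 k hk
    have h7 : (((k - s0 - 1 : ℕ) : ℝ) + 1) = (k : ℝ) - s0 := by
      have : k - s0 - 1 + 1 = k - s0 := by omega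
      have h6 : (((k - s0 - 1 + 1 : ℕ)) : ℝ) = (((k - s0 : ℕ)) : ℝ) := by rw [this]
      rw [Nat.cast_add, Nat.cast_one] at h6
      rw [h6, Nat.cast_sub h1.le]
    rw [h7]
    simp only [pow_zero, add_zero, Nat.choose_self, Nat.cast_one, one_mul]
    rw [show (t : ℝ) + ((k : ℝ) - s0) = (t : ℝ) - s0 + k by ring]
  have hzero : ∀ t : ℕ, t < s0 → φ t = 0 := by
    intro t ht
    rw [hval t]
    obtain ⟨P', hP'⟩ := hz (s0 - t) (Finset.mem_Icc.2 ⟨by omega, by omega⟩)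
    have h1 : TS ((t : ℚ) - s0) (X + C ((s0 - t : ℕ) : ℚ)) = PowerSeries.X := by
      rw [TS_lin, Nat.cast_sub ht.le]
      simp
    have h2 : PowerSeries.coeff 0 (RS s μ P ((t : ℚ) - s0)) = 0 := by
      unfold RS
      rw [hP', RingHom.map_mul, RingHom.map_pow, h1, mul_assoc, PowerSeries.coeff_X_pow_mul', if_neg (by omega)]
    rw [h2]; simp
  have hshift : ∀ t : ℕ, φ (t + s0) = ((PowerSeries.coeff 0 (RS s μ P (t : ℚ)) : ℚ) : ℝ) := by
    intro t
    rw [hval (t + s0)]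
    congr 4
    push_cast
    ring
  have h1 := (hasSum_nat_add_iff' (f := φ) s0).2 hφ
  have h2 : ∑ i ∈ Finset.range s0, φ i = 0 :=
    Finset.sum_eq_zero fun i hi => hzero i (Finset.mem_range.1 hi)
  rw [h2, sub_zero] at h1
  simpa only [hshift] using h1

end

end Pool.Agent.W339.ZC
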