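import Pool.Agent.H337R2.Asym
import Pool.Agent.H337R2.RealSup
import Pool.Agent.W339.ZC.Zero

/-!
# Rational combinations of the derivatives of one rational function

For a symmetric rational function `R` all the series `∑_t R^(δ)(t) / δ!`, `0 ≤ δ < b`, are linear forms
`∑_i (-1)^δ C(i-1+δ, δ) ρ_i ζ(i+δ) - …` with the same coefficients `ρ_i`.
-/

open Polynomial Filter Topology Pool.Agent.H337R2

namespace Pool.Agent.W339.ZC

noncomputable section

set_option linter.unusedSectionVars false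

/-- the terms of the series with the derivative of order `δ` -/
def tm (b h c n : ℕ) (ds : List ℕ) (δ : ℕ) (t : ℕ) : ℝ :=
  ((PowerSeries.coeff δ (RS (ss h c n) (mu h n ds) (PP b h c n ds) (t : ℚ)) : ℚ) : ℝ)

/-- the binomial coefficient with its sign -/
def Cf (δ i : ℕ) : ℚ := (-1) ^ δ * (Nat.choose (i - 1 + δ) (i - 1) : ℚ)

/-- the combination evaluated at rational numbers `U i` -/
def xc (b h c n : ℕ) (ds : List ℕ) (β : ℕ) (w U : ℕ → ℚ) : ℚ :=
  ∑ i ∈ Finset.Icc 1 ds.length,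
    ((∑ k ∈ ss h c n, pa (ss h c n) (mu h n ds) (PP b h c n ds) k i) * U i -
      ∑ δ ∈ Finset.range (β + 1), (w δ * Cf δ i) *
        ∑ k ∈ ss h c n, pa (ss h c n) (mu h n ds) (PP b h c n ds) k i * hs (i + δ) (k - c * n - 1))

/-- the numbers whose irrationality is studied -/
def Zc (β : ℕ) (w : ℕ → ℚ) (i : ℕ) : ℝ := ∑ δ ∈ Finset.range (β + 1), ((w δ * Cf δ i : ℚ) : ℝ) * zr (i + δ)

lemma rho_zero (b h c n : ℕ) (ds : List ℕ) (hn : 1 ≤ n)
    (hc : ∀ d ∈ ds, c < d) (h2 : ∀ d ∈ ds, 2 * d < h) (hlen : 3 ≤ ds.length) (hev : Even ds.length)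
    (hdeg : 2 * b * c ≤ (ds.map fun d => h - 2 * d).sum) (i : ℕ) (hi1 : 1 ≤ i) (hi : ¬ (Odd i ∧ 3 ≤ i)) :
    ∑ k ∈ ss h c n, pa (ss h c n) (mu h n ds) (PP b h c n ds) k i = 0 := by
  have hd := deg_lt b h c n ds hn hc h2 hlen hdeg
  by_cases hodd : Odd i
  · have : i = 1 := by
      obtain ⟨j, hj⟩ := hodd
      by_contra h1
      exact hi ⟨⟨j, hj⟩, by omega⟩
    subst this
    exact residue_sum (ss h c n) (mu h n ds) (PP b h c n ds) hd
  · have hodd' := Nat.not_odd_iff_even.1 hodd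
    exact even_vanish (ss h c n) (mu h n ds) (PP b h c n ds) (h * n)
      (fun k hk => ss_reflect h c n hk) (fun k hk => mu_reflect h n ds (ss_reflect h c n hk).1)
      (PP_comp b h c n ds) (even_sum_mu h c n ds hn hc h2 hev) hodd' hi1

theorem hasSum_tm (b h c n : ℕ) (ds : List ℕ) (hn : 1 ≤ n)
    (hc : ∀ d ∈ ds, c < d) (h2 : ∀ d ∈ ds, 2 * d < h) (hlen : 3 ≤ ds.length)
    (hdeg : 2 * b * c ≤ (ds.map fun d => h - 2 * d).sum) (δ : ℕ) (hδb : δ + 1 ≤ b) :
    HasSum (tm b h c n ds δ)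
      (∑ i ∈ Finset.Icc 1 ds.length, ((Cf δ i : ℚ) : ℝ) *
        (((∑ k ∈ ss h c n, pa (ss h c n) (mu h n ds) (PP b h c n ds) k i : ℚ) : ℝ) * zr (i + δ) -
          ((∑ k ∈ ss h c n, pa (ss h c n) (mu h n ds) (PP b h c n ds) k i * hs (i + δ) (k - c * n - 1) : ℚ) : ℝ))) := by
  have hd := deg_lt b h c n ds hn hc h2 hlen hdeg
  have hdeg' : (PP b h c n ds).degree < (QQ (ss h c n) (mu h n ds)).degree := by
    rw [Polynomial.degree_eq_natDegree (QQ_monic _ _).ne_zero]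
    exact lt_of_le_of_lt Polynomial.degree_le_natDegree (by exact_mod_cast (by omega))
  rcases Nat.eq_zero_or_pos δ with h0 | h0
  · subst h0
    have h1 := linear_form0 (ss h c n) (mu h n ds) (PP b h c n ds) hd (c * n) ds.length
      (fun k hk => by rw [ss, Finset.mem_Icc] at hk; omega)
      (fun k _ => mu_le_length h n ds k)
      (fun m hm => (pow_dvd_pow _ hδb).trans (PP_dvd b h c n ds hm))
    unfold tm
    convert h1 using 1
    apply Finset.sum_congr rfl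
    intro i _
    simp [Cf]
  · exact linear_form' (ss h c n) (mu h n ds) (PP b h c n ds) hdeg' δ (c * n) ds.length h0
      (fun k hk => by rw [ss, Finset.mem_Icc] at hk; omega)
      (fun k _ => mu_le_length h n ds k)
      (fun m hm => (pow_dvd_pow _ hδb).trans (PP_dvd b h c n ds hm))

theorem hasSum_xc (b h c n : ℕ) (ds : List ℕ) (hn : 1 ≤ n)
    (hc : ∀ d ∈ ds, c < d) (h2 : ∀ d ∈ ds, 2 * d < h) (hlen : 3 ≤ ds.length) (hev : Even ds.length)
    (hdeg : 2 * b * c ≤ (ds.map fun d => h - 2 * d).sum) (β : ℕ) (hβ : β + 1 ≤ b) (w U : ℕ → ℚ)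
    (hU : ∀ i, Odd i → 3 ≤ i → i ≤ ds.length → Zc β w i = (U i : ℝ)) :
    HasSum (fun t => ∑ δ ∈ Finset.range (β + 1), (w δ : ℝ) * tm b h c n ds δ t) ((xc b h c n ds β w U : ℚ) : ℝ) := by
  have h1 : HasSum (fun t => ∑ δ ∈ Finset.range (β + 1), (w δ : ℝ) * tm b h c n ds δ t)
      (∑ δ ∈ Finset.range (β + 1), (w δ : ℝ) * (∑ i ∈ Finset.Icc 1 ds.length, ((Cf δ i : ℚ) : ℝ) *
        (((∑ k ∈ ss h c n, pa (ss h c n) (mu h n ds) (PP b h c n ds) k i : ℚ) : ℝ) * zr (i + δ) -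
          ((∑ k ∈ ss h c n, pa (ss h c n) (mu h n ds) (PP b h c n ds) k i * hs (i + δ) (k - c * n - 1) : ℚ) : ℝ)))) := by
    apply hasSum_sum
    intro δ hδ
    rw [Finset.mem_range] at hδ
    exact (hasSum_tm b h c n ds hn hc h2 hlen hdeg δ (by omega)).mul_left _
  convert h1 using 1
  unfold xc
  push_cast
  simp only [Finset.mul_sum]
  rw [Finset.sum_comm]
  apply Finset.sum_congr rfl
  intro i hi
  rw [Finset.mem_Icc] at hi
  have key : ((∑ k ∈ ss h c n, ((pa (ss h c n) (mu h n ds) (PP b h c n ds) k i : ℚ) : ℝ)) * (U i : ℝ)) =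
      ∑ δ ∈ Finset.range (β + 1), (w δ : ℝ) * ((Cf δ i : ℚ) : ℝ) *
        ((∑ k ∈ ss h c n, ((pa (ss h c n) (mu h n ds) (PP b h c n ds) k i : ℚ) : ℝ)) * zr (i + δ)) := by
    by_cases hodd : Odd i ∧ 3 ≤ i
    · rw [← hU i hodd.1 hodd.2 hi.2, Zc, Finset.mul_sum]
      apply Finset.sum_congr rfl
      intro δ _
      push_cast
      ring
    · have h3 := rho_zero b h c n ds hn hc h2 hlen hev hdeg i hi.1 hodd
      have h4 : (∑ k ∈ ss h c n, ((pa (ss h c n) (mu h n ds) (PP b h c n ds) k i : ℚ) : ℝ)) = 0 := by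
        have : (((∑ k ∈ ss h c n, pa (ss h c n) (mu h n ds) (PP b h c n ds) k i : ℚ)) : ℝ) = 0 := by
          rw [h3]; simp
        push_cast at this
        exact this
      rw [h4]
      simp
  rw [Finset.sum_mul] at key
  rw [Finset.sum_mul, key, ← Finset.sum_sub_distrib]
  apply Finset.sum_congr rfl
  intro δ _
  have e : ∀ (A B C' z S T : ℝ), T = A * B * S → A * B * (C' * z) - T = A * (B * (C' * z - S)) := by
    intro A B C' z S T h
    rw [h]; ring
  apply e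
  rw [Finset.mul_sum]

end

end Pool.Agent.W339.ZC
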