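import Pool.Agent.W339.ZC.NonVan
import Pool.Agent.H337R2.Main

/-!
# Archimedean bound and the criterion
-/

open Polynomial Filter Topology Pool.Agent.H337R2

namespace Pool.Agent.W339.ZC

noncomputable section

/-- the archimedean bound for the derivative of order `δ` -/
theorem real_bound (b h c : ℕ) (ds : List ℕ)
    (hc : ∀ d ∈ ds, c < d) (h2 : ∀ d ∈ ds, 2 * d < h) (hch : c < h) (h2h : 2 ≤ h) (hr : 3 ≤ ds.length)
    (S : ℝ) (hS : ∀ τ : ℝ, 0 ≤ τ → f0 b h c ds τ ≤ S) (δ : ℕ) (ε : ℝ) (hε : 0 < ε) :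
    ∀ᶠ n : ℕ in atTop, ∀ F, HasSum (tm b h c n ds δ) F → |F| ≤ Real.exp (n * (S + ε)) := by
  set r := ds.length with hrd
  set M0 : ℝ := 1 + 2 * b * c + r * (h + 1) * (h + 1) with hM0
  set K : ℝ := (Real.exp 1 * (h + 1)) ^ r * h * (∑' t : ℕ, 1 / ((t : ℝ) + 1) ^ 2) * M0 ^ δ with hK
  have hts : 0 ≤ ∑' t : ℕ, 1 / ((t : ℝ) + 1) ^ 2 := tsum_nonneg fun t => by positivity
  have hK0 : 0 ≤ K := by rw [hK]; positivity
  filter_upwards [poly_exp K hK0 (r + 1 + δ) ε hε, eventually_ge_atTop 1] with n hpoly hn F hF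
  have hn1 : (1 : ℝ) ≤ n := by exact_mod_cast hn
  have h3 := F_le b h c n ds hn (by omega) hc h2 hch h2h hr S hS δ F hF
  refine h3.trans ?_
  have e : (n : ℝ) * (S + ε) = ε * n + n * S := by ring
  rw [e, Real.exp_add]
  apply mul_le_mul_of_nonneg_right _ (Real.exp_pos _).le
  refine le_trans ?_ hpoly
  have a1 : (Real.exp 1 * ((h : ℝ) * n + 1)) ^ r ≤ (Real.exp 1 * (h + 1)) ^ r * (n : ℝ) ^ r := by
    rw [← mul_pow]
    apply pow_le_pow_left₀ (by positivity)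
    rw [mul_assoc]
    apply mul_le_mul_of_nonneg_left _ (Real.exp_pos _).le
    nlinarith
  have a2 : ((1 + 2 * b * (c * n) + ∑ k ∈ ss h c n, mu h n ds k : ℕ) : ℝ) ≤ M0 * n := by
    have h4 : ∑ k ∈ ss h c n, mu h n ds k ≤ (h * n + 1) * r := by
      calc _ ≤ ∑ k ∈ ss h c n, ds.length := Finset.sum_le_sum fun k _ => mu_le_length h n ds k
        _ = (ss h c n).card * r := by rw [Finset.sum_const, smul_eq_mul]
        _ ≤ (h * n + 1) * r := by
            apply Nat.mul_le_mul_right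
            unfold ss
            rw [Nat.card_Icc]
            omega
    have h5 : ((∑ k ∈ ss h c n, mu h n ds k : ℕ) : ℝ) ≤ (((h * n + 1) * r : ℕ) : ℝ) := by exact_mod_cast h4
    push_cast at h5 ⊢
    rw [hM0]
    have h6 : ((h : ℝ) * n + 1) * r ≤ r * (h + 1) * n := by
      have : (0 : ℝ) ≤ r := by positivity
      nlinarith
    have h7 : (r : ℝ) * (h + 1) * n ≤ r * (h + 1) * (h + 1) * n := by
      have h8 : (0 : ℝ) ≤ r * (h + 1) * n := by positivity
      have h9 : (0 : ℝ) ≤ h := by positivity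
      nlinarith
    nlinarith
  have a3 : ((1 + 2 * b * (c * n) + ∑ k ∈ ss h c n, mu h n ds k : ℕ) : ℝ) ^ δ ≤ M0 ^ δ * (n : ℝ) ^ δ := by
    rw [← mul_pow]
    exact pow_le_pow_left₀ (by positivity) a2 _
  calc _ ≤ ((Real.exp 1 * (h + 1)) ^ r * (n : ℝ) ^ r) * (h * n) * (∑' t : ℕ, 1 / ((t : ℝ) + 1) ^ 2) * (M0 ^ δ * (n : ℝ) ^ δ) := by
        gcongr
    _ = K * (n : ℝ) ^ (r + 1 + δ) := by
        rw [hK, pow_add, pow_add, pow_one]; ring

/-- the archimedean bound for the combination -/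
theorem comb_bound (b h c : ℕ) (ds : List ℕ)
    (hc : ∀ d ∈ ds, c < d) (h2 : ∀ d ∈ ds, 2 * d < h) (hch : c < h) (h2h : 2 ≤ h) (hr : 3 ≤ ds.length)
    (hdeg : 2 * b * c ≤ (ds.map fun d => h - 2 * d).sum)
    (S : ℝ) (hS : ∀ τ : ℝ, 0 ≤ τ → f0 b h c ds τ ≤ S) (β : ℕ) (hβ : β + 1 ≤ b) (w : ℕ → ℚ) (ε : ℝ) (hε : 0 < ε) :
    ∀ᶠ n : ℕ in atTop, ∀ F, HasSum (fun t => ∑ δ ∈ Finset.range (β + 1), (w δ : ℝ) * tm b h c n ds δ t) F →
      |F| ≤ Real.exp (n * (S + ε)) := by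
  have hε2 : 0 < ε / 2 := by linarith
  have h1 : ∀ᶠ n : ℕ in atTop, ∀ δ ∈ Finset.range (β + 1), ∀ F, HasSum (tm b h c n ds δ) F →
      |F| ≤ Real.exp (n * (S + ε / 2)) := by
    rw [Filter.eventually_all_finset]
    intro δ _
    exact real_bound b h c ds hc h2 hch h2h hr S hS δ (ε / 2) hε2
  have hW0 : 0 ≤ ∑ δ ∈ Finset.range (β + 1), |(w δ : ℝ)| := Finset.sum_nonneg fun _ _ => abs_nonneg _
  filter_upwards [h1, poly_exp (∑ δ ∈ Finset.range (β + 1), |(w δ : ℝ)|) hW0 0 (ε / 2) hε2,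
    eventually_ge_atTop 1] with n hn hpoly hn1 F hF
  rw [pow_zero, mul_one] at hpoly
  have hs : ∀ δ ∈ Finset.range (β + 1), HasSum (tm b h c n ds δ) (∑' t, tm b h c n ds δ t) := by
    intro δ hδ
    rw [Finset.mem_range] at hδ
    exact (hasSum_tm b h c n ds hn1 hc h2 hr hdeg δ (by omega)).summable.hasSum
  have hF2 : HasSum (fun t => ∑ δ ∈ Finset.range (β + 1), (w δ : ℝ) * tm b h c n ds δ t)
      (∑ δ ∈ Finset.range (β + 1), (w δ : ℝ) * ∑' t, tm b h c n ds δ t) :=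
    hasSum_sum fun δ hδ => (hs δ hδ).mul_left _
  rw [hF.unique hF2]
  calc |∑ δ ∈ Finset.range (β + 1), (w δ : ℝ) * ∑' t, tm b h c n ds δ t|
      ≤ ∑ δ ∈ Finset.range (β + 1), |(w δ : ℝ) * ∑' t, tm b h c n ds δ t| := Finset.abs_sum_le_sum_abs _ _
    _ ≤ ∑ δ ∈ Finset.range (β + 1), |(w δ : ℝ)| * Real.exp (n * (S + ε / 2)) := by
        apply Finset.sum_le_sum
        intro δ hδ
        rw [abs_mul]
        exact mul_le_mul_of_nonneg_left (hn δ hδ _ (hs δ hδ)) (abs_nonneg _)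
    _ = (∑ δ ∈ Finset.range (β + 1), |(w δ : ℝ)|) * Real.exp (n * (S + ε / 2)) := by rw [Finset.sum_mul]
    _ ≤ Real.exp (ε / 2 * n) * Real.exp (n * (S + ε / 2)) :=
        mul_le_mul_of_nonneg_right hpoly (Real.exp_pos _).le
    _ = Real.exp (n * (S + ε)) := by rw [← Real.exp_add]; congr 1; ring

theorem criterion (b h c D : ℕ) (ds : List ℕ) (H : Params b h c D ds)
    (x : ℕ × ℕ × ℕ) (L : List (ℕ × ℕ × ℕ)) (hV : Valid b h c ds (x :: L)) (hI : Inc (x :: L))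
    (hx1 : x.1 = 1) (hx2 : x.2.1 = h - D - c) (hpos : ∀ y ∈ x :: L, 0 < y.2.1)
    (hlast : 0 < ((x :: L).getLast (by simp)).1) (S : ℝ)
    (hS : ∀ τ : ℝ, 0 ≤ τ → f0 b h c ds τ ≤ S)
    (hneg : S + (cost (x :: L) + ((b - 1 + ds.length : ℕ) : ℝ) *
      ((((x :: L).getLast (by simp)).2.1 : ℝ) / ((x :: L).getLast (by simp)).1)) < 0)
    (β : ℕ) (hβ : β + 1 ≤ b) (w : ℕ → ℚ) (hwβ : w β ≠ 0) (hwz : ∀ δ, β < δ → w δ = 0) :
    ∃ i, Odd i ∧ 3 ≤ i ∧ i ≤ ds.length ∧ Irrational (Zc β w i) := by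
  by_contra hcon
  push Not at hcon
  have hrat : ∀ i, ∃ v : ℚ, (Odd i ∧ 3 ≤ i ∧ i ≤ ds.length → Zc β w i = (v : ℝ)) ∧ (ds.length < i → v = 0) := by
    intro i
    by_cases hi : Odd i ∧ 3 ≤ i ∧ i ≤ ds.length
    · have h1 := hcon i hi.1 hi.2.1 hi.2.2
      unfold Irrational at h1
      rw [not_not] at h1
      obtain ⟨v, hv⟩ := h1
      exact ⟨v, fun _ => hv.symm, fun h => by omega⟩
    · exact ⟨0, fun h => absurd h hi, fun _ => rfl⟩
  choose u hu1 hu2 using hrat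
  set q1 : ℕ := ∏ i ∈ Finset.range (ds.length + 1), (u i).den with hq1
  set q2 : ℕ := ∏ i ∈ Finset.range (β + 1), (w i).den with hq2
  set q : ℕ := q1 * q2 with hq
  have hq10 : 0 < q1 := by
    rw [hq1]; exact Finset.prod_pos fun i _ => (u i).den_pos
  have hq20 : 0 < q2 := by
    rw [hq2]; exact Finset.prod_pos fun i _ => (w i).den_pos
  have hq0 : 0 < q := Nat.mul_pos hq10 hq20
  have hden : ∀ (v : ℚ) (Q : ℕ), v.den ∣ Q → ∃ z : ℤ, (Q : ℚ) * v = z := by
    intro v Q hQ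
    obtain ⟨y, hy⟩ := hQ
    refine ⟨y * v.num, ?_⟩
    rw [hy]
    push_cast
    have h2 : (v.den : ℚ) * v = v.num := by
      rw [mul_comm]; exact Rat.mul_den_eq_num v
    calc (v.den : ℚ) * y * v = y * ((v.den : ℚ) * v) := by ring
      _ = _ := by rw [h2]
  have hqu : ∀ i, ∃ z : ℤ, (q : ℚ) * u i = z := by
    intro i
    by_cases hi : ds.length < i
    · exact ⟨0, by rw [hu2 i hi]; simp⟩
    · exact hden _ _ ((Finset.dvd_prod_of_mem (fun i => (u i).den) (Finset.mem_range.2 (by omega))).trans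
        (Dvd.intro _ rfl))
  have hqw : ∀ i, ∃ z : ℤ, (q : ℚ) * w i = z := by
    intro i
    by_cases hi : β < i
    · exact ⟨0, by rw [hwz i hi]; simp⟩
    · exact hden _ _ ((Finset.dvd_prod_of_mem (fun i => (w i).den) (Finset.mem_range.2 (by omega))).trans
        (Dvd.intro_left _ rfl))
  -- the growth inequality
  set T : ℝ := S + (cost (x :: L) + ((b - 1 + ds.length : ℕ) : ℝ) *
      ((((x :: L).getLast (by simp)).2.1 : ℝ) / ((x :: L).getLast (by simp)).1)) with hT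
  have hε : 0 < -T / 4 := by linarith
  have hκ : 2 ≤ h - D - c := by
    have := H.hcc
    have := H.hDD
    have := H.hc D H.hDm
    omega
  set κ := h - D - c with hκdef
  have hch : c < h := by have := H.hcc; omega
  have ev1 := comb_bound b h c ds H.hc H.h2 hch (by have := H.hcc; have := H.hc D H.hDm; omega) H.hlen H.hdeg S hS
    β hβ w (-T / 4) hε
  have ev2 := log_Dn_le b h ds.length x L hI hpos hlast (-T / 4) hε
  have ev3 : ∀ᶠ n : ℕ in atTop, Real.log q ≤ (-T / 4) * n := by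
    have := (tendsto_natCast_atTop_atTop (R := ℝ)).const_mul_atTop hε
    exact this.eventually_ge_atTop _
  have ev4 : ∀ᶠ n : ℕ in atTop, ∀ y ∈ x :: L, y.2.1 ^ 2 ≤ h * n := by
    obtain ⟨B, hB⟩ : ∃ B : ℕ, ∀ y ∈ x :: L, y.2.1 ≤ B := by
      refine ⟨((x :: L).map fun y => y.2.1).sum, fun y hy => ?_⟩
      exact List.single_le_sum (fun _ _ => Nat.zero_le _) _ (List.mem_map_of_mem hy)
    filter_upwards [eventually_ge_atTop (B ^ 2)] with n hn y hy
    have h1 := hB y hy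
    have h2 : y.2.1 ^ 2 ≤ B ^ 2 := Nat.pow_le_pow_left h1 2
    have h3 : 1 ≤ h := by have := H.hcc; omega
    nlinarith
  obtain ⟨N, hN⟩ := eventually_atTop.1 (ev1.and (ev2.and (ev3.and ev4)))
  -- a special prime
  haveI : NeZero κ := ⟨by omega⟩
  obtain ⟨p, hpN, hp, hpmod⟩ := Nat.forall_exists_prime_gt_and_eq_mod (q := κ) (a := (-1 : ZMod κ)) (by
    exact isUnit_one.neg) (κ * (N + 2) + q + h ^ 2 + ds.length + b + (w β).num.natAbs)
  haveI : Fact p.Prime := ⟨hp⟩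
  have hdvd : κ ∣ p + 1 := by
    rw [← CharP.cast_eq_zero_iff (ZMod κ) κ (p + 1)]
    push_cast
    rw [hpmod]; ring
  obtain ⟨n, hn⟩ := hdvd
  have hpn : p + 1 = κ * n := hn
  have hNn : N + 2 ≤ n := by
    by_contra h1
    have h2 : κ * n ≤ κ * (N + 2) := Nat.mul_le_mul_left κ (by omega)
    omega
  have hnp : n ≤ p := by nlinarith
  have hp2 : h * n < p ^ 2 := by
    have h1 : h ^ 2 < p := by omega
    have h2 : h ≤ h ^ 2 := by
      have : 1 ≤ h := by have := H.hcc; omega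
      nlinarith
    calc h * n ≤ h * p := Nat.mul_le_mul_left h hnp
      _ < p * p := by
        apply Nat.mul_lt_mul_of_pos_right _ hp.pos
        omega
      _ = p ^ 2 := by ring
  obtain ⟨h1, h2, h3, h4⟩ := hN n (by omega)
  have hqp : ¬ p ∣ q := fun h5 => by
    have := Nat.le_of_dvd hq0 h5
    omega
  have hq1' : padicNorm p (q : ℚ) = 1 := by
    rw [padicNorm.nat_eq_one_iff]
    exact hqp
  have hint : ∀ v : ℚ, (∃ z : ℤ, (q : ℚ) * v = z) → padicNorm p v ≤ 1 := by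
    intro v hv
    have := norm_le_of_mul_int (p := p) hq0 hv
    rwa [hq1', inv_one] at this
  have hwn : padicNorm p (w β) = 1 := by
    have e1 : w β = ((w β).num : ℚ) / ((w β).den : ℚ) := (Rat.num_div_den _).symm
    rw [e1, padicNorm.div]
    have e2 : padicNorm p ((w β).num : ℚ) = 1 := by
      rw [padicNorm.int_eq_one_iff]
      intro h5
      have h6 : p ∣ (w β).num.natAbs := by
        rwa [← Int.natCast_dvd_natCast, Int.dvd_natAbs]
      have h7 := Nat.le_of_dvd (Int.natAbs_pos.2 (Rat.num_ne_zero.2 hwβ)) h6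
      omega
    have e3 : padicNorm p ((w β).den : ℚ) = 1 := by
      rw [padicNorm.nat_eq_one_iff]
      intro h5
      apply hqp
      refine h5.trans ((Finset.dvd_prod_of_mem (fun i => (w i).den) (Finset.mem_range.2 (by omega : β < β + 1))).trans
        (Dvd.intro_left _ rfl))
    rw [e2, e3]; norm_num
  have hne := xc_ne_zero (p := p) b h c n D ds H.hb (by omega) H.hDm H.hD H.hc H.h2 H.hcc H.hDD hpn hp2
    β hβ (by omega) w u hwn (fun i => hint _ (hqw i)) (fun i => hint _ (hqu i))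
  have hsum := hasSum_xc b h c n ds (by omega) H.hc H.h2 H.hlen H.hev H.hdeg β hβ w u
    (fun i hi1 hi2 hi3 => hu1 i ⟨hi1, hi2, hi3⟩)
  have h5 := h1 _ hsum
  obtain ⟨m, hm⟩ := integral b h c n D ds (by have := H.hb; omega) (by omega) H.hD H.hc H.h2 hch H.hcc x L hV hx1 hx2
    (fun y hy => ⟨h4 y hy, hpos y hy⟩) hlast β hβ w u q hq0 hqu hqw
  have hDpos := Dn_pos b h n ds.length x L (by omega)
  have hm0 : m ≠ 0 := by
    rintro rfl
    simp only [Int.cast_zero, mul_eq_zero] at hm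
    rcases hm with h6 | h6 | h6
    · have : Dn b h n ds.length x L = 0 := by exact_mod_cast h6
      omega
    · have : q = 0 := by exact_mod_cast h6
      omega
    · exact hne h6
  have hm1 : (1 : ℝ) ≤ |(m : ℝ)| := by
    have : (1 : ℤ) ≤ |m| := Int.one_le_abs hm0
    exact_mod_cast this
  have hmr : (m : ℝ) = (Dn b h n ds.length x L : ℝ) * (q * ((xc b h c n ds β w u : ℚ) : ℝ)) := by
    have : ((m : ℚ) : ℝ) = (((Dn b h n ds.length x L : ℕ) : ℚ) * (q * xc b h c n ds β w u) : ℚ) := by rw [hm]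
    push_cast at this
    exact this
  have hDr : (0 : ℝ) < (Dn b h n ds.length x L : ℝ) := by exact_mod_cast hDpos
  have hqr : (0 : ℝ) < (q : ℝ) := by exact_mod_cast hq0
  rw [hmr, abs_mul, abs_mul, abs_of_pos hDr, abs_of_pos hqr] at hm1
  have e1 : (Dn b h n ds.length x L : ℝ) ≤ Real.exp ((cost (x :: L) + ((b - 1 + ds.length : ℕ) : ℝ) * ((((x :: L).getLast (by simp)).2.1 : ℝ) / ((x :: L).getLast (by simp)).1) + -T / 4) * n) := by
    rw [← Real.log_le_iff_le_exp hDr]; exact h2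
  have e2 : (q : ℝ) ≤ Real.exp (-T / 4 * n) := by
    rw [← Real.log_le_iff_le_exp hqr]; exact h3
  have e3 : (Dn b h n ds.length x L : ℝ) * (q * |((xc b h c n ds β w u : ℚ) : ℝ)|) ≤
      Real.exp ((cost (x :: L) + ((b - 1 + ds.length : ℕ) : ℝ) * ((((x :: L).getLast (by simp)).2.1 : ℝ) / ((x :: L).getLast (by simp)).1) + -T / 4) * n) *
      (Real.exp (-T / 4 * n) * Real.exp (n * (S + -T / 4))) := by
    gcongr
  rw [← Real.exp_add, ← Real.exp_add] at e3
  have e4 : (cost (x :: L) + ((b - 1 + ds.length : ℕ) : ℝ) * ((((x :: L).getLast (by simp)).2.1 : ℝ) / ((x :: L).getLast (by simp)).1) + -T / 4) * n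
      + (-T / 4 * n + n * (S + -T / 4)) = (T / 4) * n := by
    rw [hT]; ring
  rw [e4] at e3
  have hn0 : (0 : ℝ) < n := by exact_mod_cast (by omega : 0 < n)
  have e5 : Real.exp (T / 4 * n) < 1 := by
    rw [Real.exp_lt_one_iff]
    nlinarith
  linarith

end

end Pool.Agent.W339.ZC
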