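import Pool.Agent.W339.ZC.Crit
import Pool.Agent.H337R2.Unif2

/-!
# Families of parameters
-/

open Polynomial Filter Topology Pool.Agent.H337R2

namespace Pool.Agent.W339.ZC

noncomputable section

theorem certU_irrational {b B h c D : ℕ} {dm dmB : List (ℕ × ℕ)} {C CB : List (ℕ × ℕ × ℕ)} {q X l : ℕ} {G : List ℕ}
    {q' X' l' : ℕ} {G' : List ℕ} {Sc : ℕ}
    (H : CertU b B h c D dm dmB C CB q X l G q' X' l' G' Sc) (m : ℕ)
    (β : ℕ) (hβ : β + 1 ≤ b + B * m) (w : ℕ → ℚ) (hwβ : w β ≠ 0) (hwz : ∀ δ, β < δ → w δ = 0) :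
    ∃ i, Odd i ∧ 3 ≤ i ∧ i ≤ (expd dm).length + m * (expd dmB).length ∧ Irrational (Zc β w i) := by
  have hdD : ∀ d ∈ expd (comb dm dmB m), D ≤ d ∧ 2 * d < h := by
    intro d hd
    rcases mem_comb hd with hd' | hd'
    · obtain ⟨z, hz, hzd⟩ := mem_expd hd'
      have := H.hdm z hz
      omega
    · obtain ⟨z, hz, hzd⟩ := mem_expd hd'
      have := H.hdmB z hz
      omega
  have hcc := H.hcc
  have hcD := H.hcD
  have hb := H.hb
  have hc : ∀ d ∈ expd (comb dm dmB m), c < d := fun d hd => by have := hdD d hd; omega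
  have h2 : ∀ d ∈ expd (comb dm dmB m), 2 * d < h := fun d hd => (hdD d hd).2
  have hlen := length_comb dm dmB m
  have hlen3 : 3 ≤ (expd (comb dm dmB m)).length := by
    rw [hlen]; have := H.hlen; omega
  have hev : Even (expd (comb dm dmB m)).length := by
    rw [hlen]; exact H.hev.add (H.hevB.mul_left m)
  have hdeg : 2 * (b + B * m) * c ≤ ((expd (comb dm dmB m)).map fun d => h - 2 * d).sum := by
    rw [sum_comb, smul_eq_mul]
    have h1 := H.hdeg
    have h3 := Nat.mul_le_mul_left m H.hdegB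
    have e : 2 * (b + B * m) * c = 2 * b * c + m * (2 * B * c) := by ring
    omega
  have hDm : D ∈ expd (comb dm dmB m) := by
    unfold comb
    rw [expd_append, List.mem_append]
    exact Or.inl H.hDm
  have P : Params (b + B * m) h c D (expd (comb dm dmB m)) :=
    ⟨by omega, hDm, fun d hd => (hdD d hd).1, hc, h2, H.hcc, H.hDD, hlen3, hev, hdeg⟩
  obtain ⟨hV, hI, hcost⟩ := mix_valid (m := m) H.hcD H.hcc H.hDD H.hdm H.hdmB C CB H.hC H.hCB H.hsame
  have hIC : Inc C := (cellsOK_sound H.hcD H.hcc H.hDD H.hdm C H.hC).2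
  have hc1 := cost_leI Sc H.hSc C hIC
  have hc2 := cost_leI Sc H.hSc CB (Inc_of_same C CB H.hsame hIC)
  set S : ℝ := -(X : ℝ) / q + m * (-(X' : ℝ) / q') with hS
  have hsup : ∀ τ : ℝ, 0 ≤ τ → f0 (b + B * m) h c (expd (comb dm dmB m)) τ ≤ S := by
    intro τ hτ
    rw [f0_comb]
    have a1 := realOK_sound H.hq (by omega) (fun z hz => (H.hdm z hz).1) l G H.hX hτ
    have a2 := realOK_sound H.hq' (by omega) (fun z hz => (H.hdmB z hz).1) l' G' H.hX' hτ
    have a3 : (m : ℝ) * f0 B h c (expd dmB) τ ≤ m * (-(X' : ℝ) / q') := mul_le_mul_of_nonneg_left a2 (by positivity)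
    linarith
  have hneg : -(X : ℝ) / q + ((costN Sc C : ℝ) / Sc + ((b - 1 + (expd dm).length : ℕ) : ℝ) * (((C.getLast H.hne).2.1 : ℝ) / (C.getLast H.hne).1)) < 0 := by
    have h3 := H.hneg
    have h4 : ((-(X : ℚ) / q + ((costN Sc C : ℚ) / Sc +
    ((b - 1 + (expd dm).length : ℕ) : ℚ) * (((C.getLast H.hne).2.1 : ℚ) / (C.getLast H.hne).1)) : ℚ) : ℝ) < 0 := by exact_mod_cast h3
    rw [Rat.cast_add, Rat.cast_div, Rat.cast_neg, Rat.cast_natCast, Rat.cast_natCast, Rat.cast_add, Rat.cast_div, Rat.cast_mul,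
      Rat.cast_div, Rat.cast_natCast, Rat.cast_natCast, Rat.cast_natCast, Rat.cast_natCast, Rat.cast_natCast] at h4
    exact h4
  have hnegB : -(X' : ℝ) / q' + ((costN Sc CB : ℝ) / Sc + ((B + (expd dmB).length : ℕ) : ℝ) * (((C.getLast H.hne).2.1 : ℝ) / (C.getLast H.hne).1)) ≤ 0 := by
    have h3 := H.hnegB
    have h4 : ((-(X' : ℚ) / q' + ((costN Sc CB : ℚ) / Sc +
    ((B + (expd dmB).length : ℕ) : ℚ) * (((C.getLast H.hne).2.1 : ℚ) / (C.getLast H.hne).1)) : ℚ) : ℝ) ≤ 0 := by exact_mod_cast h3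
    rw [Rat.cast_add, Rat.cast_div, Rat.cast_neg, Rat.cast_natCast, Rat.cast_natCast, Rat.cast_add, Rat.cast_div, Rat.cast_mul,
      Rat.cast_div, Rat.cast_natCast, Rat.cast_natCast, Rat.cast_natCast, Rat.cast_natCast, Rat.cast_natCast] at h4
    exact h4
  have hmap := mix_map m C CB H.hsame
  have hmlen := mix_len m C CB H.hsame
  have hgl : ∀ hne' : mix m C CB ≠ [], ((mix m C CB).getLast hne').1 = (C.getLast H.hne).1 ∧
      ((mix m C CB).getLast hne').2.1 = (C.getLast H.hne).2.1 := by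
    intro hne'
    have e1 : ((mix m C CB).map (fun x => (x.1, x.2.1))).getLast (by simpa using hne') =
        (C.map (fun x => (x.1, x.2.1))).getLast (by simpa using H.hne) := by
      simp only [hmap]
    rw [List.getLast_map, List.getLast_map] at e1
    have e2 := Prod.ext_iff.1 e1
    exact ⟨e2.1, e2.2⟩
  have hposm : ∀ y ∈ mix m C CB, 0 < y.2.1 := by
    intro y hy
    have h3 : (y.1, y.2.1) ∈ (mix m C CB).map (fun x => (x.1, x.2.1)) := List.mem_map_of_mem hy
    rw [hmap, List.mem_map] at h3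
    obtain ⟨z, hz, hz2⟩ := h3
    have h4 := H.hpos z hz
    have h5 := (Prod.ext_iff.1 hz2).2
    simp only at h5
    omega
  obtain ⟨x, L, hxL⟩ : ∃ x L, mix m C CB = x :: L := by
    apply List.exists_cons_of_ne_nil
    intro h3
    rw [h3] at hmlen
    exact H.hne (List.length_eq_zero_iff.1 hmlen.symm)
  have hhead : x.1 = 1 ∧ x.2.1 = h - D - c := by
    obtain ⟨y, M, hyM⟩ : ∃ x L, C = x :: L := List.exists_cons_of_ne_nil H.hne
    have h3 := H.hhead
    simp only [hyM, List.head_cons] at h3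
    rw [hxL, hyM, List.map_cons, List.map_cons] at hmap
    have h4 := (List.cons.inj hmap).1
    have h5 := Prod.ext_iff.1 h4
    simp only at h5
    rw [h5.1, h5.2]
    exact h3
  have hgl' := hgl (by rw [hxL]; simp)
  simp only [hxL] at hgl' hposm hV hI hcost
  have hfin := criterion (b + B * m) h c D (expd (comb dm dmB m)) P x L hV hI hhead.1 hhead.2 hposm
    (by rw [hgl'.1]; exact H.hlast) S hsup (by
      rw [hcost, hgl'.1, hgl'.2, hlen]
      have e1 : ((b + B * m - 1 + ((expd dm).length + m * (expd dmB).length) : ℕ) : ℝ) =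
          ((b - 1 + (expd dm).length : ℕ) : ℝ) + m * ((B + (expd dmB).length : ℕ) : ℝ) := by
        rw [← Nat.cast_mul, ← Nat.cast_add]
        congr 1
        have : B * m = m * B := mul_comm _ _
        rw [Nat.mul_add]
        omega
      rw [e1]
      set z : ℝ := ((C.getLast H.hne).2.1 : ℝ) / (C.getLast H.hne).1
      have hm0 : (0 : ℝ) ≤ m := by positivity
      have a1 := mul_le_mul_of_nonneg_left hnegB hm0
      have a2 := mul_le_mul_of_nonneg_left hc2 hm0
      rw [hS]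
      nlinarith) β hβ w hwβ hwz
  rw [hlen] at hfin
  exact hfin

end

end Pool.Agent.W339.ZC
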