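import Pool.Agent.W339.ZC.Core

/-!
# p-adic size of the combination
-/

open Polynomial Pool.Agent.H337R2

namespace Pool.Agent.W339.ZC

noncomputable section

set_option linter.unusedSectionVars false

variable {p : ℕ} [hp : Fact p.Prime]

lemma norm_Cf (δ i : ℕ) : padicNorm p (Cf δ i) ≤ 1 := by
  unfold Cf
  have := padicNorm.of_int (p := p) ((-1) ^ δ * (Nat.choose (i - 1 + δ) (i - 1) : ℤ))
  push_cast at this
  exact this

lemma xc_norm (b h c n : ℕ) (ds : List ℕ) (β : ℕ) (w U : ℕ → ℚ) (W : ℚ) (hW : 0 ≤ W)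
    (h1 : ∀ i ∈ Finset.Icc 1 ds.length, ∀ k ∈ ss h c n,
      padicNorm p (pa (ss h c n) (mu h n ds) (PP b h c n ds) k i) * padicNorm p (U i) ≤ W)
    (h2 : ∀ i ∈ Finset.Icc 1 ds.length, ∀ k ∈ ss h c n, ∀ δ ∈ Finset.range (β + 1),
      padicNorm p (w δ) * (padicNorm p (pa (ss h c n) (mu h n ds) (PP b h c n ds) k i) *
        padicNorm p (hs (i + δ) (k - c * n - 1))) ≤ W) :
    padicNorm p (xc b h c n ds β w U) ≤ W := by
  unfold xc
  apply padicNorm.sum_le' _ hW
  intro i hi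
  refine padicNorm.sub.trans (max_le ?_ ?_)
  · rw [Finset.sum_mul]
    apply padicNorm.sum_le' _ hW
    intro k hk
    rw [padicNorm.mul]
    exact h1 i hi k hk
  · apply padicNorm.sum_le' _ hW
    intro δ hδ
    rw [Finset.mul_sum]
    apply padicNorm.sum_le' _ hW
    intro k hk
    rw [padicNorm.mul, padicNorm.mul, padicNorm.mul]
    have e1 := norm_Cf (p := p) δ i
    have e2 := h2 i hi k hk δ hδ
    have e3 : 0 ≤ padicNorm p (w δ) * (padicNorm p (pa (ss h c n) (mu h n ds) (PP b h c n ds) k i) *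
        padicNorm p (hs (i + δ) (k - c * n - 1))) :=
      mul_nonneg (padicNorm.nonneg _) (mul_nonneg (padicNorm.nonneg _) (padicNorm.nonneg _))
    calc padicNorm p (w δ) * padicNorm p (Cf δ i) *
          (padicNorm p (pa (ss h c n) (mu h n ds) (PP b h c n ds) k i) * padicNorm p (hs (i + δ) (k - c * n - 1)))
        = padicNorm p (Cf δ i) * (padicNorm p (w δ) * (padicNorm p (pa (ss h c n) (mu h n ds) (PP b h c n ds) k i) *
        padicNorm p (hs (i + δ) (k - c * n - 1)))) := by ring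
      _ ≤ 1 * W := mul_le_mul e1 e2 e3 zero_le_one
      _ = W := one_mul W

lemma norm_le_of_mul_int {q : ℕ} (hq : 0 < q) {u : ℚ} (hu : ∃ z : ℤ, (q : ℚ) * u = z) :
    padicNorm p u ≤ (padicNorm p (q : ℚ))⁻¹ := by
  have hq0 : 0 < padicNorm p (q : ℚ) :=
    lt_of_le_of_ne (padicNorm.nonneg _) (Ne.symm (padicNorm.nonzero (by positivity)))
  obtain ⟨z, hz⟩ := hu
  have h1 : padicNorm p ((q : ℚ) * u) ≤ 1 := by
    rw [hz]; exact padicNorm.of_int z
  rw [padicNorm.mul] at h1
  rw [← one_div, le_div_iff₀ hq0, mul_comm]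
  exact h1

/-- crude bound for all primes -/
theorem xc_crude (b h c n : ℕ) (ds : List ℕ) (hn : 1 ≤ n)
    (hc : ∀ d ∈ ds, c < d) (h2 : ∀ d ∈ ds, 2 * d < h) (hch : c < h) (β : ℕ) (hβ : β ≤ b) (w U : ℕ → ℚ) (q : ℕ)
    (hq : 0 < q) (hU : ∀ i, ∃ z : ℤ, (q : ℚ) * U i = z) (hw : ∀ i, ∃ z : ℤ, (q : ℚ) * w i = z) :
    padicNorm p (q * xc b h c n ds β w U) ≤ ((h * n + 1 : ℕ) : ℚ) ^ (4 * ds.length + b) := by
  set M : ℚ := ((h * n + 1 : ℕ) : ℚ) with hM
  have hM1 : 1 ≤ M := by rw [hM]; exact_mod_cast (by omega : 1 ≤ h * n + 1)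
  have hq0 : 0 < padicNorm p (q : ℚ) :=
    lt_of_le_of_ne (padicNorm.nonneg _) (Ne.symm (padicNorm.nonzero (by positivity)))
  have hu2 : ∀ i, padicNorm p (U i) ≤ (padicNorm p (q : ℚ))⁻¹ := fun i => norm_le_of_mul_int hq (hU i)
  have hw2 : ∀ i, padicNorm p (w i) ≤ (padicNorm p (q : ℚ))⁻¹ := fun i => norm_le_of_mul_int hq (hw i)
  rw [padicNorm.mul]
  have key : padicNorm p (xc b h c n ds β w U) ≤ M ^ (4 * ds.length + b) * (padicNorm p (q : ℚ))⁻¹ := by
    apply xc_norm
    · positivity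
    · intro i hi k hk
      have h3 := pa_crude (p := p) b h c n ds hn hc h2 hch hk i
      apply mul_le_mul _ (hu2 i) (padicNorm.nonneg _) (by positivity)
      refine h3.trans ?_
      exact pow_le_pow_right₀ hM1 (by omega)
    · intro i hi k hk δ hδ
      rw [Finset.mem_Icc] at hi
      rw [Finset.mem_range] at hδ
      have h3 := pa_crude (p := p) b h c n ds hn hc h2 hch hk i
      have h4 := hs_norm_crude (p := p) (i + δ) (k - c * n - 1) M (by
        rw [ss, Finset.mem_Icc] at hk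
        rw [hM]; exact_mod_cast (by omega : k - c * n - 1 ≤ h * n + 1)) hM1
      have h5 : padicNorm p (pa (ss h c n) (mu h n ds) (PP b h c n ds) k i) * padicNorm p (hs (i + δ) (k - c * n - 1))
          ≤ M ^ (4 * ds.length + b) :=
        calc _ ≤ M ^ (3 * ds.length) * M ^ (i + δ) := mul_le_mul h3 h4 (padicNorm.nonneg _) (by positivity)
          _ = M ^ (3 * ds.length + (i + δ)) := by rw [pow_add M (3 * ds.length)]
          _ ≤ M ^ (4 * ds.length + b) := pow_le_pow_right₀ hM1 (by omega)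
      rw [mul_comm (M ^ (4 * ds.length + b))]
      exact mul_le_mul (hw2 δ) h5 (mul_nonneg (padicNorm.nonneg _) (padicNorm.nonneg _)) (by positivity)
  calc _ ≤ padicNorm p (q : ℚ) * (M ^ (4 * ds.length + b) * (padicNorm p (q : ℚ))⁻¹) :=
        mul_le_mul_of_nonneg_left key hq0.le
    _ = _ := by field_simp

/-- medium primes -/
theorem xc_med (b h c n : ℕ) (ds : List ℕ) (hn : 1 ≤ n) (hb : 1 ≤ b)
    (hc : ∀ d ∈ ds, c < d) (h2 : ∀ d ∈ ds, 2 * d < h) (hch : c < h) (hp2 : h * n < p ^ 2) (β : ℕ) (hβ : β + 1 ≤ b)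
    (w U : ℕ → ℚ) (q : ℕ) (hq : 0 < q)
    (hU : ∀ i, ∃ z : ℤ, (q : ℚ) * U i = z) (hw : ∀ i, ∃ z : ℤ, (q : ℚ) * w i = z)
    (E : ℕ) (H : Hyp p b h c n ds E) :
    padicNorm p (q * xc b h c n ds β w U) ≤ (p : ℚ) ^ E := by
  have hp0 : (p : ℚ) ≠ 0 := p_pos'.ne'
  have hp1 : (1 : ℚ) ≤ p := p_one'
  have hq0 : 0 < padicNorm p (q : ℚ) :=
    lt_of_le_of_ne (padicNorm.nonneg _) (Ne.symm (padicNorm.nonzero (by positivity)))
  have hu2 : ∀ i, padicNorm p (U i) ≤ (padicNorm p (q : ℚ))⁻¹ := fun i => norm_le_of_mul_int hq (hU i)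
  have hw2 : ∀ i, padicNorm p (w i) ≤ (padicNorm p (q : ℚ))⁻¹ := fun i => norm_le_of_mul_int hq (hw i)
  have hpa : ∀ i, 1 ≤ i → ∀ k ∈ ss h c n, padicNorm p (pa (ss h c n) (mu h n ds) (PP b h c n ds) k i) ≤ (p : ℚ) ^ E := by
    intro i hi k hk
    by_cases hm : mu h n ds k = 0
    · rw [pa_zero_of_mu hi hm]; simp
    rcases (H k hk hm).2 with h3 | ⟨h3, h4⟩
    · refine (pa_bound_zpow b h c n ds hn hc h2 hch hp2 hk i).trans ?_
      rw [← zpow_natCast (p : ℚ) E]
      apply zpow_le_zpow_right₀ hp1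
      have : (1 : ℤ) ≤ i := by exact_mod_cast hi
      linarith
    · refine (pa_bound_int b h c n ds hk i ?_).trans ?_
      · intro m _ hmk hmm
        exact hno_of_lt h2 h3 hm hmm hmk
      · rw [norm_cst b h c n ds hp2 h2 hch.le]
        have h5 : c * n / p = 0 := Nat.div_eq_of_lt h4
        rw [h5]
        have h6 : ((2 : ℤ) * b * ((0 : ℕ) : ℤ) - ((ds.map fun d => (h - 2 * d) * n / p).sum : ℕ)) ≤ (E : ℤ) := by
          push_cast
          have : (0 : ℤ) ≤ ((ds.map fun d => (h - 2 * d) * n / p).sum : ℕ) := by positivity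
          push_cast at this
          linarith
        rw [← zpow_natCast (p : ℚ) E]
        exact zpow_le_zpow_right₀ hp1 h6
  rw [padicNorm.mul]
  have key : padicNorm p (xc b h c n ds β w U) ≤ (padicNorm p (q : ℚ))⁻¹ * (p : ℚ) ^ E := by
    apply xc_norm
    · positivity
    · intro i hi k hk
      rw [Finset.mem_Icc] at hi
      rw [mul_comm]
      exact mul_le_mul (hu2 i) (hpa i hi.1 k hk) (padicNorm.nonneg _) (by positivity)
    · intro i hi k hk δ hδ
      rw [Finset.mem_Icc] at hi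
      rw [Finset.mem_range] at hδ
      have hle : padicNorm p (pa (ss h c n) (mu h n ds) (PP b h c n ds) k i) *
        padicNorm p (hs (i + δ) (k - c * n - 1)) ≤ (p : ℚ) ^ E := by
        by_cases hm : mu h n ds k = 0
        · rw [pa_zero_of_mu hi.1 hm]; simp
        by_cases hkp : c * n + 1 + p ≤ k
        · have h3 := (H k hk hm).1 hkp
          have h4 := hs_norm_med (p := p) (i + δ) (k - c * n - 1) (by
            rw [ss, Finset.mem_Icc] at hk
            omega)
          have h5 := pa_bound_zpow (p := p) b h c n ds hn hc h2 hch hp2 hk i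
          refine (mul_le_mul h5 h4 (padicNorm.nonneg _) (by positivity)).trans ?_
          rw [← zpow_natCast (p : ℚ) (i + δ), ← zpow_natCast (p : ℚ) E, ← zpow_add₀ hp0]
          apply zpow_le_zpow_right₀ hp1
          push_cast
          have h6 : (δ : ℤ) + 1 ≤ b := by exact_mod_cast (by omega : δ + 1 ≤ b)
          linarith
        · have h4 := hs_norm_small (p := p) (i + δ) (k - c * n - 1) (by
            have := hp.out.pos
            omega)
          calc _ ≤ (p : ℚ) ^ E * 1 := mul_le_mul (hpa i hi.1 k hk) h4 (padicNorm.nonneg _) (by positivity)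
            _ = _ := mul_one _
      exact mul_le_mul (hw2 δ) hle (mul_nonneg (padicNorm.nonneg _) (padicNorm.nonneg _)) (by positivity)
  calc _ ≤ padicNorm p (q : ℚ) * ((padicNorm p (q : ℚ))⁻¹ * (p : ℚ) ^ E) :=
        mul_le_mul_of_nonneg_left key hq0.le
    _ = _ := by field_simp

/-- integrality of the linear form after multiplication by the common denominator -/
theorem integral (b h c n D : ℕ) (ds : List ℕ) (hb : 1 ≤ b) (hn : 1 ≤ n) (hD : ∀ d ∈ ds, D ≤ d)
    (hc : ∀ d ∈ ds, c < d) (h2 : ∀ d ∈ ds, 2 * d < h) (hch : c < h) (hcc : 2 * c + D < h)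
    (x : ℕ × ℕ × ℕ) (L : List (ℕ × ℕ × ℕ)) (hV : Valid b h c ds (x :: L))
    (hx1 : x.1 = 1) (hx2 : x.2.1 = h - D - c) (hLn : ∀ y ∈ x :: L, y.2.1 ^ 2 ≤ h * n ∧ 0 < y.2.1)
    (hlast : 0 < ((x :: L).getLast (by simp)).1) (β : ℕ) (hβ : β + 1 ≤ b)
    (w U : ℕ → ℚ) (q : ℕ) (hq : 0 < q)
    (hU : ∀ i, ∃ z : ℤ, (q : ℚ) * U i = z) (hw : ∀ i, ∃ z : ℤ, (q : ℚ) * w i = z) :
    ∃ m : ℤ, ((Dn b h n ds.length x L : ℕ) : ℚ) * (q * xc b h c n ds β w U) = m := by
  apply isInt_of_norm
  intro p hp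
  haveI : Fact p.Prime := ⟨hp⟩
  rw [padicNorm.mul]
  have hhn : 1 ≤ h * n := by nlinarith
  have hpp : 0 < (p : ℚ) := p_pos'
  by_cases hp2 : h * n < p ^ 2
  · have key : ∃ E, Hyp p b h c n ds E ∧ p ^ E ∣ Dn b h n ds.length x L := by
      by_cases hpk : (h - D - c) * n ≤ p
      · exact ⟨0, hyp_large p b h c n D ds hD hc h2 hcc hn hpk, by simp⟩
      · have htriv := hyp_trivial p b h c n ds hp.pos hch.le hhn h2 hb
        rcases exists_E b h c ds n p hp hn hp2 x L hV (by rw [hx1, hx2]; omega) (by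
          intro y hy
          have h3 := hLn y (List.mem_cons_of_mem _ hy)
          refine ⟨?_, h3.2⟩
          have h4 : y.2.1 ^ 2 < p ^ 2 := lt_of_le_of_lt h3.1 hp2
          exact lt_of_pow_lt_pow_left₀ 2 (by omega) h4) with h3 | h3 | h3
        · obtain ⟨E, hE, hd⟩ := h3
          refine ⟨E, hE, ?_⟩
          unfold Dn
          exact (hd.mul_left _).mul_right _
        · refine ⟨_, htriv, ?_⟩
          unfold Dn
          exact (((pow_dvd_pow_of_dvd h3 _).mul_left _).mul_right _).mul_right _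
        · refine ⟨_, htriv, ?_⟩
          unfold Dn
          apply Dvd.dvd.mul_left
          unfold TT
          apply Finset.dvd_prod_of_mem (fun p => p ^ (b - 1 + ds.length))
          rw [Finset.mem_filter, Finset.mem_range]
          refine ⟨?_, hp, h3⟩
          nlinarith
    obtain ⟨E, hE, hd⟩ := key
    have h3 := xc_med (p := p) b h c n ds hn hb hc h2 hch hp2 β hβ w U q hq hU hw E hE
    have h4 := norm_le_of_dvd (p := p) hd
    calc _ ≤ ((p : ℚ) ^ E)⁻¹ * (p : ℚ) ^ E := mul_le_mul h4 h3 (padicNorm.nonneg _) (by positivity)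
      _ = 1 := inv_mul_cancel₀ (by positivity)
  · have h3 := xc_crude (p := p) b h c n ds hn hc h2 hch β (by omega) w U q hq hU hw
    have hd : (p ^ (Nat.log p (h * n + 1) + 1)) ^ (4 * ds.length + b) ∣ Dn b h n ds.length x L := by
      unfold Dn
      apply Dvd.dvd.mul_right
      apply Dvd.dvd.mul_right
      apply Dvd.dvd.mul_right
      unfold AA
      apply Finset.dvd_prod_of_mem (fun p => (p ^ (Nat.log p (h * n + 1) + 1)) ^ (4 * ds.length + b))
      rw [Finset.mem_filter, Finset.mem_range]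
      refine ⟨?_, hp⟩
      have : p ≤ Nat.sqrt (h * n) := Nat.le_sqrt.2 (by nlinarith)
      omega
    rw [← pow_mul] at hd
    have h4 := norm_le_of_dvd (p := p) hd
    have h5 : h * n + 1 < p ^ (Nat.log p (h * n + 1) + 1) := Nat.lt_pow_succ_log_self hp.one_lt _
    have h6 : ((h * n + 1 : ℕ) : ℚ) ^ (4 * ds.length + b) ≤ ((p : ℚ) ^ ((Nat.log p (h * n + 1) + 1) * (4 * ds.length + b))) := by
      rw [pow_mul]
      apply pow_le_pow_left₀ (by positivity)
      exact_mod_cast h5.le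
    calc _ ≤ ((p : ℚ) ^ ((Nat.log p (h * n + 1) + 1) * (4 * ds.length + b)))⁻¹ *
          ((p : ℚ) ^ ((Nat.log p (h * n + 1) + 1) * (4 * ds.length + b))) := by
          exact mul_le_mul h4 (h3.trans h6) (padicNorm.nonneg _) (by positivity)
      _ = 1 := inv_mul_cancel₀ (by positivity)

end

end Pool.Agent.W339.ZC
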